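import Pool.Agent.V117.VNum

/-! The v-number can exceed the regularity along all powers of an ideal, for the weighted
polynomial ring `K[x, y]` with `deg x = deg y = e ≥ 3`. -/

namespace Pool.Agent.Results.MP_72aa19_al.WeightedPlane

open MvPolynomial Pool.Agent.V117

variable {K : Type*} [Field K]

/-- `m` is homogeneous of degree `d` for the weights `w`; zero is homogeneous of every degree. -/
def HomIn (w : Fin 2 → ℕ) (d : ℤ) (m : MvPolynomial (Fin 2) K) : Prop :=
  m = 0 ∨ ∃ j : ℕ, (j : ℤ) = d ∧ IsWeightedHomogeneous w m j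

/-- The v-number of an ideal `J` of `K[x, y]` graded by the weights `w`. -/
noncomputable def vNumber (w : Fin 2 → ℕ) (J : Ideal (MvPolynomial (Fin 2) K)) : ℕ :=
  sInf {d : ℕ | ∃ f : MvPolynomial (Fin 2) K,
    IsWeightedHomogeneous w f d ∧ J.colon {f} ∈ Submodule.associatedPrimes J}

/-- The degree `d` part of the localization `M_s` of the homogeneous ideal `M` at a homogeneous
element `s` of degree `e`, inside the fraction field: all quotients `m / s ^ n` with `m ∈ M`
homogeneous of degree `d + n e`. -/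
def locPiece (w : Fin 2 → ℕ) (s : MvPolynomial (Fin 2) K) (e : ℕ)
    (M : Ideal (MvPolynomial (Fin 2) K)) (d : ℤ) : Set (FractionRing (MvPolynomial (Fin 2) K)) :=
  {q | ∃ (n : ℕ) (m : MvPolynomial (Fin 2) K), m ∈ M ∧ HomIn w (d + n * e) m ∧
    q * algebraMap _ _ (s ^ n) = algebraMap _ _ m}

/-- `H^0_{(x,y)}(M)_d ≠ 0`. -/
def H0 (w : Fin 2 → ℕ) (M : Ideal (MvPolynomial (Fin 2) K)) (d : ℤ) : Prop :=
  ∃ m ∈ M, HomIn w d m ∧ m ≠ 0 ∧ (∃ n, X 0 ^ n * m = 0) ∧ ∃ n, X 1 ^ n * m = 0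

/-- `H^1_{(x,y)}(M)_d ≠ 0`, by the Cech complex `0 → M → M_x ⊕ M_y → M_xy → 0`: some element
of `(M_x)_d ∩ (M_y)_d` is not in `M_d`. -/
def H1 (w : Fin 2 → ℕ) (M : Ideal (MvPolynomial (Fin 2) K)) (d : ℤ) : Prop :=
  ∃ q, q ∈ locPiece w (X 0) (w 0) M d ∧ q ∈ locPiece w (X 1) (w 1) M d ∧
    ∀ m ∈ M, HomIn w d m → algebraMap _ _ m ≠ q

/-- `H^2_{(x,y)}(M)_d ≠ 0`, by the Cech complex: some element of `(M_xy)_d` is not in
`(M_x)_d + (M_y)_d`. -/
def H2 (w : Fin 2 → ℕ) (M : Ideal (MvPolynomial (Fin 2) K)) (d : ℤ) : Prop :=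
  ∃ q ∈ locPiece w (X 0 * X 1) (w 0 + w 1) M d,
    ∀ a ∈ locPiece w (X 0) (w 0) M d, ∀ b ∈ locPiece w (X 1) (w 1) M d, a + b ≠ q

/-- All the numbers `d + i` with `H^i_{(x,y)}(M)_d ≠ 0`; the regularity is their maximum. -/
def regSet (w : Fin 2 → ℕ) (M : Ideal (MvPolynomial (Fin 2) K)) : Set ℤ :=
  {r | H0 w M r ∨ H1 w M (r - 1) ∨ H2 w M (r - 2)}

/-- The Rees algebra of a filtration, inside the polynomial ring `R[T]`. -/
noncomputable def reesFilt (F : ℕ → Ideal (MvPolynomial (Fin 2) K)) :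
    Subalgebra (MvPolynomial (Fin 2) K) (Polynomial (MvPolynomial (Fin 2) K)) :=
  Algebra.adjoin _ {f | ∃ k, ∃ a ∈ F k, f = Polynomial.monomial k a}

/-- Noetherian graded filtrations of `K[x, y]` graded by the weights `w`. -/
structure IsNoetherianGradedFiltration (w : Fin 2 → ℕ)
    (F : ℕ → Ideal (MvPolynomial (Fin 2) K)) : Prop where
  homogeneous : ∀ k, ∀ f ∈ F k, ∀ d : ℕ, weightedHomogeneousComponent w d f ∈ F k
  zero : F 0 = ⊤
  anti : ∀ k, F (k + 1) ≤ F k
  mul : ∀ k l, F k * F l ≤ F (k + l)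
  noetherian : IsNoetherianRing (reesFilt F)

theorem isUpper (i : Fin 2) (k : ℕ) : IsUpperSet {m : Fin 2 →₀ ℕ | k ≤ m i} := by
  intro a b hab ha
  exact le_trans ha (hab i)

theorem span_eq (i : Fin 2) (k : ℕ) : Ideal.span {(X i : MvPolynomial (Fin 2) K) ^ k}
    = upIdeal K {m : Fin 2 →₀ ℕ | k ≤ m i} := by
  apply le_antisymm
  · rw [Ideal.span_singleton_le_iff_mem, X_pow_eq_monomial]
    apply Ideal.subset_span
    exact ⟨Finsupp.single i k, by simp, rfl⟩
  · unfold upIdeal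
    rw [Ideal.span_le]
    rintro _ ⟨m, hm, rfl⟩
    have hle : Finsupp.single i k ≤ m := by
      rw [Finsupp.single_le_iff]
      exact hm
    have : monomial m (1 : K) = monomial (m - Finsupp.single i k) 1 * X i ^ k := by
      rw [X_pow_eq_monomial, monomial_mul, mul_one, tsub_add_cancel_of_le hle]
    show monomial m (1 : K) ∈ _
    rw [this]
    exact Ideal.mul_mem_left _ _ (Ideal.mem_span_singleton_self _)

theorem mem_span_iff {i : Fin 2} {k : ℕ} {f : MvPolynomial (Fin 2) K} :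
    f ∈ Ideal.span {(X i : MvPolynomial (Fin 2) K) ^ k} ↔ ∀ m ∈ f.support, k ≤ m i := by
  rw [span_eq, mem_upIdeal (isUpper i k)]
  rfl

/-- If `x^n r` is homogeneous then so is `r`. -/
theorem homIn_of_mul {e n : ℕ} {d : ℤ} {i : Fin 2} {r : MvPolynomial (Fin 2) K}
    (h : HomIn (fun _ => e) (d + n * e) (X i ^ n * r)) : HomIn (fun _ => e) d r := by
  classical
  rcases h with h | ⟨j, hj, h⟩
  · left
    rcases mul_eq_zero.1 h with h | h
    · exact absurd h (pow_ne_zero _ (X_ne_zero i))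
    · exact h
  · by_cases hr : r = 0
    · exact Or.inl hr
    right
    have key : ∀ u ∈ r.support, (Finsupp.weight (fun _ : Fin 2 => e) u) + n * e = j := by
      intro u hu
      have h1 : coeff (Finsupp.single i n + u) (X i ^ n * r) ≠ 0 := by
        rw [X_pow_eq_monomial, coeff_monomial_mul, one_mul]
        exact mem_support_iff.1 hu
      have h2 := h h1
      rw [map_add, Finsupp.weight_single] at h2
      simp only [smul_eq_mul] at h2
      omega
    obtain ⟨u, hu⟩ := Finset.nonempty_iff_ne_empty.mpr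
      (fun hs => hr (MvPolynomial.support_eq_empty.mp hs))
    have h3 := key u hu
    refine ⟨Finsupp.weight (fun _ : Fin 2 => e) u, ?_, ?_⟩
    · rw [← h3] at hj
      push_cast at hj
      linarith
    · intro v hv
      have h4 := key v (mem_support_iff.2 hv)
      omega

theorem not_dvd_X_pow (n : ℕ) : ¬ (X 0 : MvPolynomial (Fin 2) K) ∣ X 1 ^ n := by
  intro h
  have h1 : (X 1 : MvPolynomial (Fin 2) K) ^ n ∈
      Ideal.span {(X 0 : MvPolynomial (Fin 2) K) ^ 1} := by
    rw [pow_one, Ideal.mem_span_singleton]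
    exact h
  rw [mem_span_iff] at h1
  have h2 := h1 (Finsupp.single 1 n) (by
    rw [X_pow_eq_monomial, mem_support_iff, coeff_monomial, if_pos rfl]
    exact one_ne_zero)
  simp at h2

theorem not_H0 {w : Fin 2 → ℕ} {M : Ideal (MvPolynomial (Fin 2) K)} {d : ℤ} : ¬ H0 w M d := by
  rintro ⟨m, _, _, hm0, ⟨n, hn⟩, _⟩
  rcases mul_eq_zero.1 hn with h | h
  · exact absurd h (pow_ne_zero _ (X_ne_zero 0))
  · exact hm0 h

theorem not_H1 {e k : ℕ} {d : ℤ} :
    ¬ H1 (fun _ => e) (Ideal.span {(X 0 : MvPolynomial (Fin 2) K) ^ k}) d := by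
  rintro ⟨q, ⟨n, m, hm, hmd, hq⟩, ⟨n', m', hm', _, hq'⟩, hno⟩
  have hinj := IsFractionRing.injective (MvPolynomial (Fin 2) K)
    (FractionRing (MvPolynomial (Fin 2) K))
  have h1 : m * X 1 ^ n' = m' * X 0 ^ n := by
    apply hinj
    rw [map_mul, map_mul, ← hq, ← hq']
    ring
  have hprime : Prime (X 0 : MvPolynomial (Fin 2) K) := MvPolynomial.X_prime
  have h2 : (X 0 : MvPolynomial (Fin 2) K) ^ n ∣ m :=
    hprime.pow_dvd_of_dvd_mul_right n (not_dvd_X_pow n') ⟨m', by rw [h1, mul_comm]⟩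
  obtain ⟨r, hr⟩ := h2
  have hx : algebraMap (MvPolynomial (Fin 2) K) (FractionRing (MvPolynomial (Fin 2) K))
      (X 0 ^ n) ≠ 0 := by
    rw [Ne, map_eq_zero_iff _ hinj]
    exact pow_ne_zero _ (X_ne_zero 0)
  have h3 : q = algebraMap _ _ r := by
    apply mul_right_cancel₀ hx
    rw [hq, ← map_mul, hr, mul_comm]
  have h4 : r * X 1 ^ n' = m' := by
    apply hinj
    rw [map_mul, ← h3, ← hq']
  have h5 : r ∈ Ideal.span {(X 0 : MvPolynomial (Fin 2) K) ^ k} := by
    rw [Ideal.mem_span_singleton] at hm' ⊢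
    exact hprime.pow_dvd_of_dvd_mul_right k (not_dvd_X_pow n') (by rw [h4]; exact hm')
  rw [hr] at hmd
  exact hno r h5 (homIn_of_mul hmd) h3.symm

theorem H2_top {e k : ℕ} :
    H2 (fun _ => e) (Ideal.span {(X 0 : MvPolynomial (Fin 2) K) ^ k}) (e * ((k : ℤ) - 2)) := by
  classical
  have hinj := IsFractionRing.injective (MvPolynomial (Fin 2) K)
    (FractionRing (MvPolynomial (Fin 2) K))
  have hne : algebraMap (MvPolynomial (Fin 2) K) (FractionRing (MvPolynomial (Fin 2) K))
      (X 0 * X 1) ≠ 0 := by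
    rw [Ne, map_eq_zero_iff _ hinj]
    exact mul_ne_zero (X_ne_zero 0) (X_ne_zero 1)
  refine ⟨algebraMap (MvPolynomial (Fin 2) K) _ (X 0 ^ k) /
      algebraMap (MvPolynomial (Fin 2) K) _ (X 0 * X 1),
    ⟨1, X 0 ^ k, Ideal.mem_span_singleton_self _, Or.inr ⟨k * e, ?_, ?_⟩, ?_⟩, ?_⟩
  · push_cast
    ring
  · have := (isWeightedHomogeneous_X K (fun _ : Fin 2 => e) 0).pow k
    simpa using this
  · rw [pow_one, div_mul_cancel₀ _ hne]
  · rintro a ⟨n, ma, _, _, ha⟩ b ⟨n', mb, hmb, _, hb⟩ hab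
    rw [eq_div_iff hne] at hab
    have h1 : ma * (X 0 * X 1 ^ (n' + 1)) + mb * (X 0 ^ (n + 1) * X 1)
        = X 0 ^ (k + n) * X 1 ^ n' := by
      apply hinj
      have h2 : algebraMap (MvPolynomial (Fin 2) K) (FractionRing (MvPolynomial (Fin 2) K))
          (X 0 ^ (k + n) * X 1 ^ n') =
          ((a + b) * algebraMap (MvPolynomial (Fin 2) K) _ (X 0 * X 1)) *
            algebraMap (MvPolynomial (Fin 2) K) _ (X 0 ^ n * X 1 ^ n') := by
        rw [hab, ← map_mul]
        congr 1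
        ring
      rw [h2, map_add, map_mul _ ma, map_mul _ mb, ← ha, ← hb]
      simp only [map_mul, map_pow]
      ring
    have h3 : coeff (Finsupp.single 0 (k + n) + Finsupp.single 1 n')
        (ma * (X 0 * X 1 ^ (n' + 1))) = 0 := by
      have h4 : ma * (X 0 * X 1 ^ (n' + 1)) ∈
          Ideal.span {(X 1 : MvPolynomial (Fin 2) K) ^ (n' + 1)} := by
        rw [← mul_assoc]
        exact Ideal.mul_mem_left _ _ (Ideal.mem_span_singleton_self _)
      rw [mem_span_iff] at h4
      by_contra hc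
      have := h4 _ (mem_support_iff.2 hc)
      simp at this
    have h5 : coeff (Finsupp.single 0 (k + n) + Finsupp.single 1 n')
        (mb * (X 0 ^ (n + 1) * X 1)) = 0 := by
      have h4 : mb * (X 0 ^ (n + 1) * X 1) ∈
          Ideal.span {(X 0 : MvPolynomial (Fin 2) K) ^ (k + n + 1)} := by
        rw [Ideal.mem_span_singleton] at hmb ⊢
        rw [← mul_assoc, add_assoc, pow_add]
        exact Dvd.dvd.mul_right (mul_dvd_mul hmb dvd_rfl) _
      rw [mem_span_iff] at h4
      by_contra hc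
      have := h4 _ (mem_support_iff.2 hc)
      simp at this
    have h6 := congrArg (coeff (Finsupp.single 0 (k + n) + Finsupp.single 1 n')) h1
    rw [coeff_add, h3, h5, X_pow_eq_monomial, X_pow_eq_monomial, monomial_mul, coeff_monomial,
      if_pos rfl] at h6
    simp at h6

theorem weight_eq (e : ℕ) (u : Fin 2 →₀ ℕ) :
    Finsupp.weight (fun _ : Fin 2 => e) u = e * (u 0 + u 1) := by
  rw [Finsupp.weight_apply, Finsupp.sum_fintype _ _ (by simp), Fin.sum_univ_two]
  simp only [smul_eq_mul]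
  ring

theorem homIn_filter {w : Fin 2 → ℕ} {d : ℤ} {m : MvPolynomial (Fin 2) K} (h : HomIn w d m)
    (p : (Fin 2 →₀ ℕ) → Prop) [DecidablePred p] :
    HomIn w d (∑ u ∈ m.support.filter p, monomial u (coeff u m)) := by
  rcases h with h | ⟨j, hj, h⟩
  · left
    rw [h]
    simp
  · right
    refine ⟨j, hj, ?_⟩
    apply IsWeightedHomogeneous.sum
    intro u hu
    rw [Finset.mem_filter] at hu
    exact isWeightedHomogeneous_monomial _ _ _ (h (mem_support_iff.1 hu.1))

theorem mem_support_filter {m : MvPolynomial (Fin 2) K}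
    (p : (Fin 2 →₀ ℕ) → Prop) [DecidablePred p] {v : Fin 2 →₀ ℕ}
    (hv : v ∈ (∑ u ∈ m.support.filter p, monomial u (coeff u m)).support) :
    v ∈ m.support ∧ p v := by
  classical
  rw [mem_support_iff, coeff_sum] at hv
  obtain ⟨u, hu, hne⟩ := Finset.exists_ne_zero_of_sum_ne_zero hv
  rw [coeff_monomial] at hne
  split_ifs at hne with h
  · rw [Finset.mem_filter] at hu
    rw [← h]
    exact hu
  · exact absurd rfl hne

theorem not_H2 {e k : ℕ} {d : ℤ} (hd : e * ((k : ℤ) - 2) < d) :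
    ¬ H2 (fun _ => e) (Ideal.span {(X 0 : MvPolynomial (Fin 2) K) ^ k}) d := by
  classical
  rintro ⟨q, ⟨n, m, hm, hmd, hq⟩, hno⟩
  have hinj := IsFractionRing.injective (MvPolynomial (Fin 2) K)
    (FractionRing (MvPolynomial (Fin 2) K))
  set m1 : MvPolynomial (Fin 2) K :=
    ∑ u ∈ m.support.filter (fun u => n ≤ u 1), monomial u (coeff u m) with hm1
  set m2 : MvPolynomial (Fin 2) K :=
    ∑ u ∈ m.support.filter (fun u => ¬ n ≤ u 1), monomial u (coeff u m) with hm2
  have hsum : m1 + m2 = m := by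
    conv_rhs => rw [m.as_sum]
    exact Finset.sum_filter_add_sum_filter_not _ _ _
  have hd1 := homIn_filter hmd (fun u => n ≤ u 1)
  have hd2 := homIn_filter hmd (fun u => ¬ n ≤ u 1)
  rw [← hm1] at hd1
  rw [← hm2] at hd2
  -- first part
  have hdvd1 : m1 ∈ Ideal.span {(X 1 : MvPolynomial (Fin 2) K) ^ n} := by
    rw [mem_span_iff]
    intro u hu
    exact (mem_support_filter _ hu).2
  have hdvd2 : m2 ∈ Ideal.span {(X 0 : MvPolynomial (Fin 2) K) ^ (n + k)} := by
    rw [mem_span_iff]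
    intro u hu
    obtain ⟨hu1, hu2⟩ := mem_support_filter _ hu
    rcases hmd with h | ⟨j, hj, h⟩
    · rw [h] at hu1
      simp at hu1
    · have h1 := h (mem_support_iff.1 hu1)
      rw [weight_eq] at h1
      rw [← h1] at hj
      push_cast at hj
      by_contra hlt
      push Not at hu2 hlt
      have h2 : ((u 0 : ℤ) + u 1) ≤ (k : ℤ) - 2 + 2 * n := by
        have h3 : u 0 + 1 ≤ n + k := hlt
        have h4 : u 1 + 1 ≤ n := hu2
        have h5 : ((u 0 : ℕ) : ℤ) + 1 ≤ n + k := by exact_mod_cast h3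
        have h6 : ((u 1 : ℕ) : ℤ) + 1 ≤ n := by exact_mod_cast h4
        linarith
      have h7 : (e : ℤ) * ((u 0 : ℤ) + u 1) ≤ e * ((k : ℤ) - 2 + 2 * n) :=
        mul_le_mul_of_nonneg_left h2 (by positivity)
      nlinarith
  have hM1 : m1 ∈ Ideal.span {(X 0 : MvPolynomial (Fin 2) K) ^ k} := by
    rw [mem_span_iff] at hm ⊢
    intro u hu
    exact hm u (mem_support_filter _ hu).1
  have hprime : ∀ i : Fin 2, Prime (X i : MvPolynomial (Fin 2) K) :=
    fun i => MvPolynomial.X_prime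
  rw [Ideal.mem_span_singleton] at hdvd1 hdvd2 hM1
  obtain ⟨r1, hr1⟩ := hdvd1
  obtain ⟨r2, hr2⟩ := hdvd2
  have hr1M : r1 ∈ Ideal.span {(X 0 : MvPolynomial (Fin 2) K) ^ k} := by
    rw [Ideal.mem_span_singleton]
    refine (hprime 0).pow_dvd_of_dvd_mul_right k (not_dvd_X_pow n) ?_
    rw [mul_comm, ← hr1]
    exact hM1
  have hr2M : X 0 ^ k * r2 ∈ Ideal.span {(X 0 : MvPolynomial (Fin 2) K) ^ k} :=
    Ideal.mul_mem_right _ _ (Ideal.mem_span_singleton_self _)
  have hd1' : HomIn (fun _ => e) (d + n * e) r1 := by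
    rw [hr1] at hd1
    apply homIn_of_mul (n := n) (i := 1)
    convert hd1 using 1
    push_cast
    ring
  have hd2' : HomIn (fun _ => e) (d + n * e) (X 0 ^ k * r2) := by
    rw [hr2, pow_add, mul_assoc] at hd2
    apply homIn_of_mul (n := n) (i := 0)
    convert hd2 using 1
    push_cast
    ring
  have hx : ∀ i : Fin 2, ∀ n : ℕ,
      algebraMap (MvPolynomial (Fin 2) K) (FractionRing (MvPolynomial (Fin 2) K))
      (X i ^ n) ≠ 0 := by
    intro i n
    rw [Ne, map_eq_zero_iff _ hinj]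
    exact pow_ne_zero _ (X_ne_zero i)
  apply hno (algebraMap _ _ r1 / algebraMap _ _ (X 0 ^ n))
    ⟨n, r1, hr1M, hd1', div_mul_cancel₀ _ (hx 0 n)⟩
    (algebraMap _ _ (X 0 ^ k * r2) / algebraMap _ _ (X 1 ^ n))
    ⟨n, X 0 ^ k * r2, hr2M, hd2', div_mul_cancel₀ _ (hx 1 n)⟩
  have hne : algebraMap (MvPolynomial (Fin 2) K) (FractionRing (MvPolynomial (Fin 2) K))
      ((X 0 * X 1) ^ n) ≠ 0 := by
    rw [Ne, map_eq_zero_iff _ hinj]
    exact pow_ne_zero _ (mul_ne_zero (X_ne_zero 0) (X_ne_zero 1))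
  apply mul_right_cancel₀ hne
  rw [hq, ← hsum, hr1, hr2, map_add, mul_pow, map_mul _ (X 0 ^ n) (X 1 ^ n), add_mul,
    div_mul_eq_mul_div, div_mul_eq_mul_div]
  have e1 := hx 0 n
  have e2 := hx 1 n
  field_simp
  simp only [map_mul, map_pow, pow_add]
  ring

theorem isGreatest_regSet {e k : ℕ} :
    IsGreatest (regSet (fun _ => e) (Ideal.span {(X 0 : MvPolynomial (Fin 2) K) ^ k}))
      (e * ((k : ℤ) - 2) + 2) := by
  constructor
  · right
    right
    have := H2_top (K := K) (e := e) (k := k)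
    rwa [show (e : ℤ) * ((k : ℤ) - 2) + 2 - 2 = e * ((k : ℤ) - 2) by ring]
  · rintro r (h | h | h)
    · exact absurd h not_H0
    · exact absurd h not_H1
    · by_contra hlt
      push Not at hlt
      exact not_H2 (by linarith) h

theorem vNumber_eq {e k : ℕ} (hk : 1 ≤ k) :
    vNumber (fun _ => e) (Ideal.span {(X 0 : MvPolynomial (Fin 2) K) ^ k}) = e * (k - 1) := by
  classical
  have hprime : Prime (X 0 : MvPolynomial (Fin 2) K) := MvPolynomial.X_prime
  have hcolon : (Ideal.span {(X 0 : MvPolynomial (Fin 2) K) ^ k}).colon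
      {(X 0 : MvPolynomial (Fin 2) K) ^ (k - 1)} = Ideal.span {X 0} := by
    ext g
    rw [Submodule.mem_colon_singleton, smul_eq_mul, Ideal.mem_span_singleton,
      Ideal.mem_span_singleton]
    obtain ⟨l, rfl⟩ : ∃ l, k = l + 1 := ⟨k - 1, by omega⟩
    rw [Nat.add_sub_cancel, pow_succ', mul_dvd_mul_iff_right (pow_ne_zero _ (X_ne_zero 0))]
  have hmem : e * (k - 1) ∈ {d : ℕ | ∃ f : MvPolynomial (Fin 2) K,
      IsWeightedHomogeneous (fun _ => e) f d ∧
      (Ideal.span {(X 0 : MvPolynomial (Fin 2) K) ^ k}).colon {f} ∈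
        Submodule.associatedPrimes (Ideal.span {(X 0 : MvPolynomial (Fin 2) K) ^ k})} := by
    refine ⟨X 0 ^ (k - 1), ?_, ?_⟩
    · have := (isWeightedHomogeneous_X K (fun _ : Fin 2 => e) 0).pow (k - 1)
      rw [smul_eq_mul] at this
      rwa [mul_comm] at this
    · rw [colon_mem_ass, hcolon, Ideal.span_singleton_prime (X_ne_zero 0)]
      exact hprime
  apply le_antisymm (Nat.sInf_le hmem)
  apply le_csInf ⟨_, hmem⟩
  rintro d ⟨f, hf, hass⟩
  rw [colon_mem_ass] at hass
  have h1 : (X 0 : MvPolynomial (Fin 2) K) ∈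
      (Ideal.span {(X 0 : MvPolynomial (Fin 2) K) ^ k}).colon {f} := by
    apply hass.mem_of_pow_mem k
    rw [Submodule.mem_colon_singleton, smul_eq_mul]
    apply Ideal.mul_mem_right
    exact Ideal.mem_span_singleton_self _
  rw [Submodule.mem_colon_singleton, smul_eq_mul] at h1
  have hf0 : f ≠ 0 := by
    rintro rfl
    apply hass.ne_top
    rw [Ideal.eq_top_iff_one, Submodule.mem_colon_singleton, smul_zero]
    exact Ideal.zero_mem _
  obtain ⟨m, hm⟩ := Finset.nonempty_iff_ne_empty.mpr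
    (fun hs => hf0 (MvPolynomial.support_eq_empty.mp hs))
  rw [mem_span_iff] at h1
  have h2 := h1 (Finsupp.single 0 1 + m) (by
    rw [mem_support_iff, coeff_X_mul]
    exact mem_support_iff.mp hm)
  rw [Finsupp.add_apply, Finsupp.single_eq_same] at h2
  have h3 := hf (mem_support_iff.1 hm)
  rw [weight_eq] at h3
  rw [← h3]
  apply Nat.mul_le_mul_left
  omega

theorem filtration (e : ℕ) : IsNoetherianGradedFiltration (K := K) (fun _ => e)
    (fun k => Ideal.span {X 0} ^ k) := by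
  classical
  refine ⟨?_, ?_, ?_, ?_, ?_⟩
  · intro k f hf d
    rw [Ideal.span_singleton_pow, mem_span_iff] at hf ⊢
    intro m hm
    apply hf
    rw [mem_support_iff, coeff_weightedHomogeneousComponent] at hm
    rw [mem_support_iff]
    intro h
    simp [h] at hm
  · rw [pow_zero, Ideal.one_eq_top]
  · intro k
    exact Ideal.pow_le_pow_right (Nat.le_succ k)
  · intro k l
    exact le_of_eq (pow_add _ k l).symm
  · have : reesFilt (fun k => Ideal.span {(X 0 : MvPolynomial (Fin 2) K)} ^ k)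
        = reesAlgebra (Ideal.span {(X 0 : MvPolynomial (Fin 2) K)}) := by
      apply le_antisymm
      · unfold reesFilt
        rw [Algebra.adjoin_le_iff]
        rintro _ ⟨k, a, ha, rfl⟩
        rw [SetLike.mem_coe, reesAlgebra.monomial_mem]
        exact ha
      · rw [← adjoin_monomial_eq_reesAlgebra]
        apply Algebra.adjoin_mono
        rintro _ ⟨a, ha, rfl⟩
        refine ⟨1, a, ?_, rfl⟩
        change a ∈ Ideal.span {(X 0 : MvPolynomial (Fin 2) K)} ^ 1
        rw [pow_one]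
        exact ha
    rw [this]
    infer_instance

/-- **Main theorem.** Let `K` be a field and grade `R = K[x, y]` by `deg x = deg y = e`, `e ≥ 3`.
The powers `I ^ k` of `I = (x)` form a Noetherian graded filtration of `R`, and for every
`k ≥ 1` one has `v(I ^ k) = e (k - 1)`, which is larger than `reg(I ^ k) = e (k - 2) + 2`. -/
theorem result (K : Type*) [Field K] (e : ℕ) (he : 3 ≤ e) :
    ∃ I : Ideal (MvPolynomial (Fin 2) K), I ≠ ⊥ ∧ I ≠ ⊤ ∧
      IsNoetherianGradedFiltration (fun _ => e) (fun k => I ^ k) ∧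
      ∀ k : ℕ, 1 ≤ k → vNumber (fun _ => e) (I ^ k) = e * (k - 1) ∧
        ∃ r : ℤ, IsGreatest (regSet (fun _ => e) (I ^ k)) r ∧ r = e * ((k : ℤ) - 2) + 2 ∧
          r < vNumber (fun _ => e) (I ^ k) := by
  refine ⟨Ideal.span {X 0}, ?_, ?_, filtration e, ?_⟩
  · rw [Ne, Ideal.span_singleton_eq_bot]
    exact X_ne_zero 0
  · intro h
    have h1 : (1 : MvPolynomial (Fin 2) K) ∈ Ideal.span {(X 0 : MvPolynomial (Fin 2) K) ^ 1} := by
      rw [pow_one, h]
      trivial
    rw [mem_span_iff] at h1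
    have := h1 0 (by
      rw [mem_support_iff, coeff_zero_one]
      exact one_ne_zero)
    simp at this
  · intro k hk
    rw [Ideal.span_singleton_pow]
    refine ⟨vNumber_eq hk, _, isGreatest_regSet, rfl, ?_⟩
    rw [vNumber_eq hk]
    push_cast [Nat.cast_sub hk]
    have : (3 : ℤ) ≤ e := by exact_mod_cast he
    linarith

end Pool.Agent.Results.MP_72aa19_al.WeightedPlane
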